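import Pool.Agent.X229.CsErase

/-!
# No family of control languages makes state-controlled finite automata context-sensitive

State-controlled finite automata may use `ε`-moves, so for every family `𝓛` the family
`SCFA(𝓛)` is closed under erasing letters. The context-sensitive languages are not.
-/

set_option autoImplicit false

namespace Pool.Agent.Results.MP_020f70_lc.NoFamily

open Relation Pool.Agent.X229.CsErase

/-- A finite automaton: rules `p a → q` with `a` a letter or `ε` (`none`), the start state and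
the final states. -/
structure FA (Sig Q : Type) where
  rules : Set (Q × Option Sig × Q)
  start : Q
  final : Set Q

/-- A move: it uses a rule `p a → q`, reads `a` and appends the state `p` that is left to the
record word. Configurations are triples (state, remaining input, record word). -/
def FA.Move {Sig Q : Type} (M : FA Sig Q) (c c' : Q × List Sig × List Q) : Prop :=
  ∃ a : Option Sig, (c.1, a, c'.1) ∈ M.rules ∧ c.2.1 = a.toList ++ c'.2.1 ∧
    c'.2.2 = c.2.2 ++ [c.1]

/-- The language accepted under the control language `C`. -/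
def FA.lang {Sig Q : Type} (M : FA Sig Q) (C : Language Q) : Language Sig :=
  {w | ∃ f ∈ M.final, ∃ α ∈ C, ReflTransGen M.Move (M.start, w, []) (f, [], α)}

/-- The family `SCFA(𝓛)` for a family `𝓛` of languages. -/
def SCFA (𝓛 : ∀ Q : Type, Set (Language Q)) {Sig : Type} (L : Language Sig) : Prop :=
  ∃ (Q : Type) (_ : Finite Q) (M : FA Sig Q), M.rules.Finite ∧ ∃ C ∈ 𝓛 Q, L = M.lang C

/-- The automaton in which the letter `none` is replaced by `ε`. -/
def er {A Q : Type} (M : FA (Option A) Q) : FA A Q where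
  rules := (fun r : Q × Option (Option A) × Q => (r.1, r.2.1.join, r.2.2)) '' M.rules
  start := M.start
  final := M.final

theorem reduce_cons {A : Type} (a : Option (Option A)) (w : List (Option A)) :
    (a.toList ++ w).reduceOption = a.join.toList ++ w.reduceOption := by
  rcases a with _ | _ | a
  · rfl
  · simp [List.reduceOption]
  · simp [List.reduceOption]

theorem er_fwd {A Q : Type} {M : FA (Option A) Q} {c c' : Q × List (Option A) × List Q}
    (h : ReflTransGen M.Move c c') :
    ReflTransGen (er M).Move (c.1, c.2.1.reduceOption, c.2.2)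
      (c'.1, c'.2.1.reduceOption, c'.2.2) := by
  refine ReflTransGen.lift (fun c : Q × List (Option A) × List Q =>
    (c.1, c.2.1.reduceOption, c.2.2)) ?_ _ _ h
  rintro ⟨p, w, α⟩ ⟨q, w', α'⟩ ⟨a, h1, h2, h3⟩
  refine ⟨a.join, ⟨_, h1, rfl⟩, ?_, h3⟩
  simp only at h2
  rw [h2]
  exact reduce_cons a w'

theorem er_bwd {A Q : Type} {M : FA (Option A) Q} {c c' : Q × List A × List Q}
    (h : ReflTransGen (er M).Move c c') (hc' : c'.2.1 = []) :
    ∃ w : List (Option A), w.reduceOption = c.2.1 ∧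
      ReflTransGen M.Move (c.1, w, c.2.2) (c'.1, [], c'.2.2) := by
  induction h using ReflTransGen.head_induction_on with
  | refl => exact ⟨[], by rw [hc']; rfl, ReflTransGen.refl⟩
  | @head c d hcd _ ih =>
    obtain ⟨w, hw, hd⟩ := ih
    obtain ⟨b, ⟨⟨p, a, q⟩, hr, he⟩, h2, h3⟩ := hcd
    simp only [Prod.mk.injEq] at he
    obtain ⟨rfl, rfl, rfl⟩ := he
    refine ⟨a.toList ++ w, ?_, ?_⟩
    · rw [reduce_cons, hw, h2]
    · exact ReflTransGen.head ⟨a, hr, rfl, h3⟩ hd

theorem er_lang {A Q : Type} (M : FA (Option A) Q) (C : Language Q) :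
    (er M).lang C = {w | ∃ w' ∈ M.lang C, w'.reduceOption = w} := by
  ext w
  constructor
  · rintro ⟨f, hf, α, hα, h⟩
    obtain ⟨w', h1, h2⟩ := er_bwd h rfl
    exact ⟨w', ⟨f, hf, α, hα, h2⟩, h1⟩
  · rintro ⟨w', ⟨f, hf, α, hα, h⟩, rfl⟩
    exact ⟨f, hf, α, hα, er_fwd h⟩

theorem er_scfa {𝓛 : ∀ Q : Type, Set (Language Q)} {A : Type} {L : Language (Option A)}
    (h : SCFA 𝓛 L) : SCFA 𝓛 ({w | ∃ w' ∈ L, w'.reduceOption = w} : Language A) := by
  obtain ⟨Q, hQ, M, hM, C, hC, rfl⟩ := h
  exact ⟨Q, hQ, er M, hM.image _, C, hC, (er_lang M C).symm⟩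

theorem main (𝓛 : ∀ Q : Type, Set (Language Q)) :
    ¬ ∀ (Sig : Type) [Finite Sig] (L : Language Sig),
      (∃ L' : Language Sig, SCFA 𝓛 L' ∧ ∀ w ≠ [], (w ∈ L' ↔ w ∈ L)) ↔ IsCS L := by
  intro H
  obtain ⟨L, hL, hn⟩ := erase_not_cs
  obtain ⟨L', hL', he⟩ := (H _ L).2 hL
  apply hn
  refine (H _ _).1 ⟨_, er_scfa hL', ?_⟩
  intro w hw
  constructor
  · rintro ⟨w', h1, h2⟩
    refine ⟨w', (he w' ?_).1 h1, h2⟩
    rintro rfl
    exact hw h2.symm
  · rintro ⟨w', h1, h2⟩
    refine ⟨w', (he w' ?_).2 h1, h2⟩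
    rintro rfl
    exact hw h2.symm

/-- For every family `𝓛` of languages whatsoever, the family `SCFA(𝓛)` is different from the
family of context-sensitive languages, also if languages which differ only in the empty word are
identified. -/
theorem result (𝓛 : ∀ Q : Type, Set (Language Q)) :
    (¬ ∀ (Sig : Type) [Finite Sig] (L : Language Sig), SCFA 𝓛 L ↔ IsCS L) ∧
      ¬ ∀ (Sig : Type) [Finite Sig] (L : Language Sig),
        (∃ L' : Language Sig, SCFA 𝓛 L' ∧ ∀ w ≠ [], (w ∈ L' ↔ w ∈ L)) ↔ IsCS L := by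
  refine ⟨fun H => main 𝓛 ?_, main 𝓛⟩
  intro Sig _ L
  constructor
  · rintro ⟨L', h1, h2⟩
    obtain ⟨N, hN, S, P, hP, hm, h3⟩ := (H _ L').1 h1
    exact ⟨N, hN, S, P, hP, hm, fun w hw => by rw [← h2 w hw]; exact h3 w hw⟩
  · intro h
    exact ⟨L, (H _ L).2 h, fun w _ => Iff.rfl⟩

end Pool.Agent.Results.MP_020f70_lc.NoFamily
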